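import Pool.Agent.Lib.helper16.AR2

set_option autoImplicit false

open MeasureTheory Pool.Agent.Lib.helper16.AR

namespace Pool.Agent.Results.MP_a29a94_pr.Disproof

/-- every bounded `μ`-harmonic function is constant -/
def Liouville {G : Type} [Group G] (μ : PMF G) : Prop :=
  ∀ f : G → ℝ, (∃ B, ∀ g, |f g| ≤ B) → (∀ g, f g = ∑' h, (μ h).toReal * f (g * h)) →
    ∀ x y, f x = f y

/-- A symmetric non-degenerate Liouville walk on a countable group that is not AR. -/
theorem result : ∃ (G : Type) (_ : Group G) (_ : Countable G) (_ : MeasurableSpace G)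
    (_ : DiscreteMeasurableSpace G) (μ : PMF G),
    Adm μ ∧ Liouville μ ∧ 0 < law μ {ω | Sg ω 1 ≠ ⊤} := by
  letI : MeasurableSpace (Multiplicative (ℕ →₀ ℤ)) := ⊤
  haveI : DiscreteMeasurableSpace (Multiplicative (ℕ →₀ ℤ)) := ⟨fun _ => trivial⟩
  obtain ⟨μ, h1, h2⟩ := nonAR_free (Equiv.refl ℕ) (MulEquiv.refl (Multiplicative (ℕ →₀ ℤ)))
  exact ⟨Multiplicative (ℕ →₀ ℤ), inferInstance, inferInstanceAs (Countable (ℕ →₀ ℤ)),
    inferInstance, inferInstance, μ, h1, fun f ⟨B, hB⟩ hf => choquet_deny μ h1.2 f B hB hf,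
    pos_iff_ne_zero.2 fun h => h2 (ae_iff.2 h)⟩

end Pool.Agent.Results.MP_a29a94_pr.Disproof
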